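import Pool.Agent.E8helper11.GS.Stm

set_option autoImplicit false

open Filter Topology Finset

namespace Pool.Agent.E8helper81.GS

open Pool.Agent.E8helper11.GS N0ef6d136

lemma mult_card (a W r : ℕ) (hr : 0 < r) :
    (((Ioc a (a + W)).filter (fun n => r ∣ n)).card : ℝ) ≤ W * (1 / (r : ℝ)) + 1 := by
  have h1 : ((Ioc a (a + W)).filter (fun n => r ∣ n)).card ≤ (Ioc (a / r) ((a + W) / r)).card := by
    refine Finset.card_le_card_of_injOn (fun n => n / r) ?_ ?_
    · intro n hn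
      rw [Finset.mem_coe, mem_filter, mem_Ioc] at hn
      obtain ⟨⟨h1, h2⟩, m, rfl⟩ := hn
      simp only [Finset.coe_Ioc, Set.mem_Ioc, Nat.mul_div_cancel_left _ hr]
      constructor
      · rw [Nat.div_lt_iff_lt_mul hr, mul_comm]; exact h1
      · rw [Nat.le_div_iff_mul_le hr, mul_comm]; exact h2
    · intro n hn n' hn' h
      rw [Finset.mem_coe, mem_filter, mem_Ioc] at hn hn'
      obtain ⟨_, m, rfl⟩ := hn
      obtain ⟨_, m', rfl⟩ := hn'
      simp only [Nat.mul_div_cancel_left _ hr] at h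
      rw [h]
  rw [Nat.card_Ioc] at h1
  have h2 : (a + W) / r * r ≤ a + W := Nat.div_mul_le_self _ _
  have h3 : a < (a / r + 1) * r := by
    have := Nat.lt_div_mul_add (a := a) hr
    rw [Nat.add_mul, one_mul]; exact this
  have h4 : a / r ≤ (a + W) / r := Nat.div_le_div_right (by omega)
  have h5 : ((a + W) / r : ℕ) - (a / r : ℕ) + (a / r : ℕ) = (a + W) / r := Nat.sub_add_cancel h4
  generalize (a + W) / r = q1 at *
  generalize a / r = q0 at *
  have hr' : (0 : ℝ) < r := by exact_mod_cast hr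
  have g1 : (((Ioc a (a + W)).filter (fun n => r ∣ n)).card : ℝ) ≤ ((q1 - q0 : ℕ) : ℝ) := by
    exact_mod_cast h1
  have g2 : ((q1 - q0 : ℕ) : ℝ) + q0 = q1 := by exact_mod_cast h5
  have g3 : (q1 : ℝ) * r ≤ a + W := by exact_mod_cast h2
  have g4 : (a : ℝ) < (q0 + 1) * r := by exact_mod_cast h3
  refine g1.trans ?_
  have g5 : (((q1 - q0 : ℕ) : ℝ) - 1) * r ≤ W := by nlinarith
  have g6 : ((q1 - q0 : ℕ) : ℝ) - 1 ≤ W / r := by rwa [le_div_iff₀ hr']
  rw [mul_one_div]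
  linarith

theorem key (u : ℕ → ℕ) (h2 : ∀ i, 2 ≤ u i) (s a W j : ℕ) (hjW : W ≤ j ^ 2)
    (hlt : ∀ l, j ≤ l ^ 2 → j ^ 2 < u l) (hall : ∀ n, a < n → n ≤ a + W → ∃ i, u i ∣ n) (T : ℝ)
    (hHH : ∀ H : Finset ℕ, (∀ i ∈ H, j ≤ i ^ 2 ∧ Hit j a (u i)) → (H.card : ℝ) ≤ T) (η : ℝ)
    (hη : ∀ F : Finset ℕ, (∀ l ∈ F, s ≤ l) → ∑ l ∈ F, 1 / (u l : ℝ) ≤ η)
    (S : Finset ℕ) (hSS : ∀ n ∈ S, a < n ∧ n ≤ a + W ∧ ∀ i < s, ¬ u i ∣ n) :
    (S.card : ℝ) ≤ W * η + (Real.sqrt j + 1) + T := by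
  classical
  set L : Finset ℕ := (range (Nat.sqrt j + 1)).filter (fun l => s ≤ l) with hL
  set S1 : Finset ℕ := L.biUnion (fun l => (Ioc a (a + W)).filter (fun n => u l ∣ n)) with hS1
  set S2 : Finset ℕ := (Ioc a (a + W)).filter (fun n => ∃ l, j ≤ l ^ 2 ∧ u l ∣ n) with hS2
  have hsub : S ⊆ S1 ∪ S2 := by
    intro n hn
    obtain ⟨h3, h4, h5⟩ := hSS n hn
    obtain ⟨i, hi⟩ := hall n h3 h4
    have hsi : s ≤ i := by
      by_contra h
      exact h5 i (by omega) hi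
    rw [mem_union]
    by_cases hj : j ≤ i ^ 2
    · right
      rw [hS2, mem_filter, mem_Ioc]
      exact ⟨⟨h3, h4⟩, i, hj, hi⟩
    · left
      rw [hS1, mem_biUnion]
      refine ⟨i, ?_, ?_⟩
      · rw [hL, mem_filter, mem_range]
        refine ⟨?_, hsi⟩
        have : i ≤ Nat.sqrt j := by
          rw [Nat.le_sqrt']
          omega
        omega
      · rw [mem_filter, mem_Ioc]
        exact ⟨⟨h3, h4⟩, hi⟩
  have c1 : (S1.card : ℝ) ≤ W * η + (Real.sqrt j + 1) := by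
    have e1 : S1.card ≤ ∑ l ∈ L, ((Ioc a (a + W)).filter (fun n => u l ∣ n)).card :=
      card_biUnion_le
    have e2 : (S1.card : ℝ) ≤ ∑ l ∈ L, (((Ioc a (a + W)).filter (fun n => u l ∣ n)).card : ℝ) := by
      exact_mod_cast e1
    refine e2.trans ?_
    have e3 : ∑ l ∈ L, (((Ioc a (a + W)).filter (fun n => u l ∣ n)).card : ℝ) ≤
        ∑ l ∈ L, ((W : ℝ) * (1 / (u l : ℝ)) + 1) :=
      sum_le_sum fun l _ => mult_card a W (u l) (by have := h2 l; omega)
    refine e3.trans ?_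
    rw [sum_add_distrib, ← mul_sum, sum_const, nsmul_eq_mul, mul_one]
    have e4 : ∑ l ∈ L, 1 / (u l : ℝ) ≤ η := hη L fun l hl => (mem_filter.1 hl).2
    have e5 : (L.card : ℝ) ≤ Real.sqrt j + 1 := by
      have e6 : L.card ≤ Nat.sqrt j + 1 := by
        have := card_filter_le (range (Nat.sqrt j + 1)) (fun l => s ≤ l)
        rwa [card_range] at this
      have e7 : (Nat.sqrt j : ℝ) ≤ Real.sqrt j := Real.nat_sqrt_le_real_sqrt
      have e8 : (L.card : ℝ) ≤ (Nat.sqrt j : ℝ) + 1 := by exact_mod_cast e6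
      linarith
    have e9 := mul_le_mul_of_nonneg_left e4 (Nat.cast_nonneg (α := ℝ) W)
    linarith
  have c2 : (S2.card : ℝ) ≤ T := by
    have hex : ∀ n ∈ S2, ∃ l, j ≤ l ^ 2 ∧ u l ∣ n := fun n hn => (mem_filter.1 hn).2
    choose! g hg using hex
    have hinj : Set.InjOn g S2 := by
      intro n hn n' hn' h
      have hn1 := mem_Ioc.1 (mem_filter.1 (Finset.mem_coe.1 hn)).1
      have hn2 := mem_Ioc.1 (mem_filter.1 (Finset.mem_coe.1 hn')).1
      have g1 := hg n hn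
      have g2 := hg n' hn'
      rw [← h] at g2
      have g3 := hlt _ g1.1
      rcases le_total n n' with hle | hle
      · have := Nat.eq_zero_of_dvd_of_lt (Nat.dvd_sub g2.2 g1.2) (by omega)
        omega
      · have := Nat.eq_zero_of_dvd_of_lt (Nat.dvd_sub g1.2 g2.2) (by omega)
        omega
    rw [← card_image_of_injOn hinj]
    apply hHH
    intro i hi
    obtain ⟨n, hn, rfl⟩ := mem_image.1 hi
    have hn1 := mem_Ioc.1 (mem_filter.1 hn).1
    exact ⟨(hg n hn).1, n, hn1.1, by omega, (hg n hn).2⟩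
  have c3 : S.card ≤ S1.card + S2.card := (card_le_card hsub).trans (card_union_le _ _)
  have c4 : (S.card : ℝ) ≤ S1.card + S2.card := by exact_mod_cast c3
  linarith

theorem tail (f : ℕ → ℝ) (hf : Summable f) (η : ℝ) (hη : 0 < η) :
    ∃ s : ℕ, ∀ F : Finset ℕ, (∀ l ∈ F, s ≤ l) → ∑ l ∈ F, f l ≤ η := by
  obtain ⟨s0, h0⟩ := summable_iff_vanishing_norm.1 hf η hη
  refine ⟨s0.sup id + 1, fun F hF => ?_⟩
  have hd : Disjoint F s0 := by
    rw [Finset.disjoint_left]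
    intro l hl hl0
    have h1 := hF l hl
    have h2 : l ≤ s0.sup id := Finset.le_sup (f := id) hl0
    omega
  exact (le_abs_self _).trans (by simpa [Real.norm_eq_abs] using (h0 F hd).le)

theorem t_GAP : Pool.Agent.E8helper11.GS.S_GAP := by
  intro hS hP hTUP u mono h2 hcop hsum hT hB hH
  refine ⟨mono, hcop, hsum, ?_⟩
  intro ε hε
  obtain ⟨hP0, hP1⟩ := hP u h2 hsum
  set P : ℝ := ∏' i : ℕ, (1 - 1 / (u i : ℝ)) with hPdef
  have hPle : P ≤ 1 := by simpa using hP1 0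
  obtain ⟨s, hs⟩ := tail _ hsum (ε * P / (4 * (1 + ε))) (by positivity)
  -- eventually in j
  have hlim : Tendsto (fun x : ℕ => Nat.log 4 x + 1) atTop atTop := by
    refine tendsto_atTop.2 fun b => ?_
    filter_upwards [eventually_ge_atTop (4 ^ b)] with x hx
    have : b ≤ Nat.log 4 x := Nat.le_log_of_pow_le (by norm_num) hx
    omega
  have hsq : Tendsto (fun j : ℕ => Real.sqrt j) atTop atTop :=
    Real.tendsto_sqrt_atTop.comp tendsto_natCast_atTop_atTop
  have n1 : ∀ᶠ j : ℕ in atTop, (1 + ε) * (2 * j) * P⁻¹ ≤ (j : ℝ) ^ 2 := by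
    filter_upwards [tendsto_natCast_atTop_atTop.eventually_ge_atTop ((1 + ε) * 2 * P⁻¹)] with j hj
    have : (0 : ℝ) ≤ j := Nat.cast_nonneg j
    nlinarith
  have n2 : ∀ᶠ j : ℕ in atTop, (2 : ℝ) + 2 ^ s < 3 * Real.sqrt j := by
    filter_upwards [hsq.eventually_gt_atTop ((2 : ℝ) + 2 ^ s)] with j hj
    have : 0 ≤ Real.sqrt j := Real.sqrt_nonneg _
    linarith
  have hall := (((((hT (8 / ε)).and hB).and (hH (ε / 4) (by positivity))).and n1).and n2)
  filter_upwards [hlim.eventually hall, eventually_ge_atTop 1] with x hx hx1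
  set j : ℕ := Nat.log 4 x + 1 with hj
  obtain ⟨⟨⟨⟨k1, k2⟩, k3⟩, k4⟩, k5⟩ := hx
  have hxlt : x < 4 ^ j := Nat.lt_pow_succ_log_self (by norm_num) x
  have hxge : 4 ^ j ≤ 4 * x := by
    rw [hj, pow_succ, mul_comm]
    exact Nat.mul_le_mul_left 4 (Nat.pow_log_le_self 4 (by omega))
  have k1 := k1 x hxge
  intro k hk
  by_contra hcon
  push Not at hcon
  set a : ℕ := A u k with ha
  set tt : ℝ := (t u x : ℝ) with htt
  set G : ℝ := (1 + ε) * tt * P⁻¹ with hG
  have hsj : 0 ≤ Real.sqrt j := Real.sqrt_nonneg _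
  have htpos : 0 < tt := by
    have h1 : 0 < Real.sqrt j := by
      have : (0 : ℝ) < 2 ^ s := by positivity
      linarith
    have : 0 < 8 / ε * Real.sqrt j := by positivity
    linarith
  have hGpos : 0 < G := by positivity
  have hceil : 1 ≤ ⌈G⌉₊ := Nat.one_le_ceil_iff.2 hGpos
  set W : ℕ := ⌈G⌉₊ - 1 with hW
  have hW1 : (W : ℝ) < G := by
    have h1 : (W : ℝ) + 1 = ⌈G⌉₊ := by
      have : W + 1 = ⌈G⌉₊ := by omega
      exact_mod_cast this
    have h2 := Nat.ceil_lt_add_one hGpos.le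
    linarith
  have hW2 : G ≤ W + 1 := by
    have h1 : (W : ℝ) + 1 = ⌈G⌉₊ := by
      have : W + 1 = ⌈G⌉₊ := by omega
      exact_mod_cast this
    have h2 := Nat.le_ceil G
    linarith
  have hWj : W ≤ j ^ 2 := by
    have h1 : tt ≤ 2 * j := by
      have := hTUP u h2 x j hxlt
      rw [htt]
      exact_mod_cast this
    have h3 : G ≤ (1 + ε) * (2 * j) * P⁻¹ := by
      rw [hG]
      gcongr
    have h4 : (W : ℝ) ≤ ((j ^ 2 : ℕ) : ℝ) := by
      push_cast
      linarith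
    exact_mod_cast h4
  have hcov : ∀ n, a < n → n ≤ a + W → ∃ i, u i ∣ n := by
    intro n hn1 hn2
    by_contra hno
    push Not at hno
    have hmem : n ∈ ASet u := hno
    have h1 : n < A u (k + 1) := by
      have h3 : (n : ℝ) ≤ a + W := by exact_mod_cast hn2
      have h4 : (n : ℝ) < A u (k + 1) := by linarith
      exact_mod_cast h4
    have h5 : n ≤ A u k := Nat.le_nth_of_lt_nth_succ h1 hmem
    omega
  have hup := key u h2 s a W j hWj k2 hcov ((1 + ε / 4) * tt)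
    (fun H hH' => k3 x hxge hxlt a (by omega) H hH') _ hs
    ((Finset.Ioc a (a + W)).filter (fun n => ∀ i < s, ¬ u i ∣ n)) (by
      intro n hn
      rw [mem_filter, mem_Ioc] at hn
      exact ⟨hn.1.1, hn.1.2, hn.2⟩)
  have hlow := hS u h2 hcop s a W
  have hlow2 : (W : ℝ) * ∏ i ∈ Finset.range s, (1 - 1 / (u i : ℝ)) - 2 ^ s ≤
      W * (ε * P / (4 * (1 + ε))) + (Real.sqrt j + 1) + (1 + ε / 4) * tt := by
    refine le_trans hlow ?_
    convert hup using 3
  have hPs := hP1 s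
  have m1 : (W : ℝ) * P ≤ W * ∏ i ∈ Finset.range s, (1 - 1 / (u i : ℝ)) :=
    mul_le_mul_of_nonneg_left hPs (Nat.cast_nonneg _)
  have m2 : G * P = (1 + ε) * tt := by
    rw [hG]
    field_simp
  have m3 : (W : ℝ) * (ε * P / (4 * (1 + ε))) ≤ ε / 4 * tt := by
    have h1 : (W : ℝ) * (ε * P / (4 * (1 + ε))) ≤ G * (ε * P / (4 * (1 + ε))) :=
      mul_le_mul_of_nonneg_right hW1.le (by positivity)
    have h2 : G * (ε * P / (4 * (1 + ε))) = ε / 4 * tt := by
      rw [hG]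
      field_simp
    linarith
  have m4 : (1 + ε) * tt - 1 ≤ W * P := by
    have : (G - 1) * P ≤ W * P := mul_le_mul_of_nonneg_right (by linarith) hP0.le
    nlinarith
  have m5 : 4 * Real.sqrt j ≤ ε / 2 * tt := by
    have := mul_le_mul_of_nonneg_left k1 (show (0 : ℝ) ≤ ε / 2 by positivity)
    have e : ε / 2 * (8 / ε * Real.sqrt j) = 4 * Real.sqrt j := by
      field_simp
      ring
    linarith
  nlinarith

end Pool.Agent.E8helper81.GS
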