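import Pool.Agent.E8helper11.GS.Stm

set_option autoImplicit false

open Filter Topology Finset
open scoped Classical

namespace Pool.Agent.E8helper81.GS

open Pool.Agent.E8helper11.GS N0ef6d136

lemma lam_nonneg (m : ℕ → ℕ) (k : ℕ) : 0 ≤ lam m k := by
  unfold lam
  positivity

lemma block (m u : ℕ → ℕ) (B : ℕ → Finset ℕ) (hBC : ∀ k, B k ⊆ Cb k) (hPos : Pos m u) {i k : ℕ}
    (h : u i ∈ B k) : 4 ^ k ≤ u i ∧ u i < 4 ^ (k + 1) ∧ i < Ms m (k + 1) := by
  have h1 := hBC k h
  unfold Cb at h1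
  rw [mem_filter, mem_Ico] at h1
  exact ⟨h1.1.1, h1.1.2, (hPos i (k + 1)).1 h1.1.2⟩

theorem prodbound (m u : ℕ → ℕ) (B : ℕ → Finset ℕ) (mono : StrictMono u) (hBC : ∀ k, B k ⊆ Cb k)
    (hPos : Pos m u) (hPot : Pot m B) (κ : ℕ → ℕ) (hκ : ∀ i, u i ∈ B (κ i)) (j a : ℕ) (hj : 1 ≤ j)
    (ha : a < 4 ^ j) (H : Finset ℕ) (hH : ∀ i ∈ H, j ≤ i ^ 2 ∧ Hit j a (u i)) :
    ∏ i ∈ H, (1 + lam m (κ i)) ≤ 15 * (4 : ℝ) ^ j * (j : ℝ) ^ 2 := by
  refine le_trans ?_ (hPot j a (H.sup κ + 1) hj ha)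
  have hmaps : ∀ i ∈ H, κ i ∈ range (H.sup κ + 1) := by
    intro i hi
    rw [mem_range]
    have : κ i ≤ H.sup κ := Finset.le_sup hi
    omega
  rw [← prod_fiberwise_of_maps_to hmaps]
  refine prod_le_prod (fun k _ => prod_nonneg fun i _ => by
    have := lam_nonneg m (κ i); linarith) fun k _ => ?_
  have e : ∏ i ∈ H with κ i = k, (1 + lam m (κ i)) = (1 + lam m k) ^ (H.filter (fun i => κ i = k)).card := by
    rw [← prod_const]
    exact prod_congr rfl fun i hi => by rw [(mem_filter.1 hi).2]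
  rw [e]
  have hl := lam_nonneg m k
  by_cases hemp : (H.filter (fun i => κ i = k)) = ∅
  · rw [hemp, card_empty, pow_zero]
    split_ifs
    · exact one_le_pow₀ (by linarith)
    · exact le_rfl
  · obtain ⟨i, hi⟩ := Finset.nonempty_iff_ne_empty.2 hemp
    obtain ⟨hi1, hi2⟩ := mem_filter.1 hi
    have hb := block m u B hBC hPos (hκ i)
    rw [hi2] at hb
    have hlt : j < (Ms m (k + 1)) ^ 2 := lt_of_le_of_lt (hH i hi1).1
      (Nat.pow_lt_pow_left hb.2.2 (by norm_num))
    rw [if_pos hlt]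
    refine pow_le_pow_right₀ (by linarith) ?_
    refine card_le_card_of_injOn u ?_ (mono.injective.injOn)
    intro i' hi'
    obtain ⟨h1, h2⟩ := mem_filter.1 (Finset.mem_coe.1 hi')
    rw [Finset.mem_coe, mem_filter]
    exact ⟨h2 ▸ hκ i', (hH i' h1).2⟩

theorem t_HITS : Pool.Agent.E8helper11.GS.S_HITS := by
  intro hCNT hREG m u B mono h2 hBC hex hPos hSub hLo hPot hLAM hHT δ hδ
  choose κ hκ using hex
  set δ' : ℝ := δ / (4 + 2 * δ) with hδ'
  have hδ'0 : 0 < δ' := by positivity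
  have hδ'1 : δ' < 1 / 2 := by
    rw [hδ', div_lt_iff₀ (by positivity)]
    linarith
  have hprod : (1 - δ') * (1 + δ / 2) = 1 + δ / 4 := by
    rw [hδ']
    field_simp
    ring
  obtain ⟨k0, hk0⟩ := eventually_atTop.1 (hLAM δ' hδ'0)
  have n1 : ∀ᶠ j : ℕ in atTop, (j : ℝ) * Real.log 4 + (Real.log 15 + 2 * Real.log j) ≤
      (1 + δ / 4) * (((j : ℝ) - 1) * Real.log 4) := by
    have hl4 : 0 < Real.log 4 := Real.log_pos (by norm_num)
    have hlog : (fun x : ℝ => Real.log x) =o[atTop] (fun x : ℝ => x) := Real.isLittleO_log_id_atTop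
    have h1 := hlog.bound (show (0 : ℝ) < δ / 16 * Real.log 4 by positivity)
    have h3 := tendsto_natCast_atTop_atTop.eventually h1
    filter_upwards [h3, tendsto_natCast_atTop_atTop.eventually_ge_atTop
      ((Real.log 15 + (1 + δ / 4) * Real.log 4) / (δ / 8 * Real.log 4)), eventually_ge_atTop 1]
      with j hj1 hj2 hj3
    rw [div_le_iff₀ (by positivity)] at hj2
    have hj0 : (1 : ℝ) ≤ j := by exact_mod_cast hj3
    rw [Real.norm_of_nonneg (Real.log_nonneg hj0), Real.norm_of_nonneg (by linarith)] at hj1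
    nlinarith
  filter_upwards [n1, eventually_ge_atTop (4 ^ (2 * k0) + 1), hHT ((2 + δ) / δ)]
    with j hj1 hj2 hj3 x hx1 hx2 a ha H hH
  have hj0 : 1 ≤ j := le_trans (Nat.le_add_left 1 _) hj2
  have hpb := prodbound m u B mono hBC hPos hPot κ hκ j a hj0 ha H hH
  -- the blocks are late
  have hlate : ∀ i ∈ H, k0 ≤ κ i := by
    intro i hi
    by_contra hlt
    push Not at hlt
    have hb := block m u B hBC hPos (hκ i)
    have h3 : u i < 4 ^ k0 := lt_of_lt_of_le hb.2.1 (Nat.pow_le_pow_right (by norm_num) (by omega))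
    have h4 : i < 4 ^ k0 := lt_of_le_of_lt (mono.le_apply) h3
    have h5 : i ^ 2 < (4 ^ k0) ^ 2 := Nat.pow_lt_pow_left h4 (by norm_num)
    have h6 : (4 ^ k0) ^ 2 = 4 ^ (2 * k0) := by rw [← pow_mul, mul_comm]
    have := (hH i hi).1
    omega
  have hlogi : ∀ i ∈ H, (1 - δ') * Real.log (u i) ≤ Real.log (1 + lam m (κ i)) := by
    intro i hi
    have hb := block m u B hBC hPos (hκ i)
    have h1 := hk0 (κ i) (hlate i hi)
    have h3 := Real.log_le_log (by positivity) h1
    rw [Real.log_rpow (by norm_num)] at h3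
    refine le_trans ?_ h3
    have h4 : Real.log (u i) ≤ ((κ i : ℝ) + 1) * Real.log 4 := by
      have h5 : (u i : ℝ) ≤ (4 : ℝ) ^ (κ i + 1) := by exact_mod_cast hb.2.1.le
      have h6 := Real.log_le_log (by have := h2 i; positivity) h5
      rw [Real.log_pow] at h6
      push_cast at h6
      exact h6
    have := mul_le_mul_of_nonneg_left h4 (show (0 : ℝ) ≤ 1 - δ' by linarith)
    linarith
  set y : ℕ := ∏ i ∈ H, u i with hy
  have hylog : Real.log y = ∑ i ∈ H, Real.log (u i) := by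
    rw [hy, Nat.cast_prod, Real.log_prod]
    intro i _
    have := h2 i
    positivity
  have hjR : (1 : ℝ) ≤ j := by exact_mod_cast hj0
  have hsum : (1 - δ') * Real.log y ≤ (j : ℝ) * Real.log 4 + (Real.log 15 + 2 * Real.log j) := by
    rw [hylog, mul_sum]
    have h3 : ∑ i ∈ H, Real.log (1 + lam m (κ i)) = Real.log (∏ i ∈ H, (1 + lam m (κ i))) := by
      rw [Real.log_prod]
      intro i _
      have := lam_nonneg m (κ i)
      positivity
    have h4 : Real.log (∏ i ∈ H, (1 + lam m (κ i))) ≤ Real.log (15 * (4 : ℝ) ^ j * (j : ℝ) ^ 2) := by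
      apply Real.log_le_log _ hpb
      apply prod_pos
      intro i _
      have := lam_nonneg m (κ i)
      positivity
    have h5 : Real.log (15 * (4 : ℝ) ^ j * (j : ℝ) ^ 2) =
        (j : ℝ) * Real.log 4 + (Real.log 15 + 2 * Real.log j) := by
      rw [Real.log_mul (by positivity) (by positivity), Real.log_mul (by norm_num) (by positivity),
        Real.log_pow, Real.log_pow]
      push_cast
      ring
    have h6 := sum_le_sum hlogi
    linarith
  have hx0 : 1 ≤ x := by
    have : 0 < 4 ^ j := by positivity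
    omega
  have hlogx : ((j : ℝ) - 1) * Real.log 4 ≤ Real.log x := by
    have h1 : (4 : ℝ) ^ j ≤ 4 * x := by exact_mod_cast hx1
    have h3 := Real.log_le_log (by positivity) h1
    rw [Real.log_pow, Real.log_mul (by norm_num) (by positivity)] at h3
    linarith
  have hreg : Real.log y ≤ (1 + δ / 2) * Real.log x := by
    have h1 : (1 - δ') * Real.log y ≤ (1 - δ') * ((1 + δ / 2) * Real.log x) := by
      rw [← mul_assoc, hprod]
      have := mul_le_mul_of_nonneg_left hlogx (show (0 : ℝ) ≤ 1 + δ / 4 by positivity)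
      linarith
    exact le_of_mul_le_mul_left h1 (by linarith)
  have hc := hCNT u mono h2 H y le_rfl
  have hr := hREG u mono h2 x y (δ / 2) (by positivity) hx0 hreg
  have hc' : (H.card : ℝ) ≤ (t u y : ℝ) := by exact_mod_cast hc
  have ht := hj3 x hx1
  have hsj : 1 ≤ Real.sqrt j := by
    rw [Real.one_le_sqrt]
    exact hjR
  have ht2 : (2 + δ) / δ ≤ (t u x : ℝ) := by
    refine le_trans ?_ ht
    have : 0 ≤ (2 + δ) / δ := by positivity
    nlinarith
  rw [div_le_iff₀ hδ] at ht2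
  nlinarith

end Pool.Agent.E8helper81.GS
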