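import Pool.Agent.E8helper11.GS.Stm2
import Pool.Agent.E8helper81.GS.HITS

set_option autoImplicit false

open Filter Topology Finset
open scoped Classical

namespace Pool.Agent.E8helper81.GS

open Pool.Agent.E8helper11.GS N0ef6d136

theorem t_HITSd : Pool.Agent.E8helper11.GS.S_HITSd := by
  intro hCNT hREG m u B δ hδ hδ1 mono h2 hBC hex hPos hLo hPot hLAM hHT
  choose κ hκ using hex
  set δ' : ℝ := 8 * δ with hδ'
  have hδ'0 : 0 < δ' := by positivity
  have hδ'1 : δ' < 1 / 2 := by
    rw [hδ']
    linarith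
  have hprod : 1 + δ ≤ (1 - δ') * (1 + 10 * δ) := by
    rw [hδ']
    nlinarith
  obtain ⟨k0, hk0⟩ := eventually_atTop.1 hLAM
  have n1 : ∀ᶠ j : ℕ in atTop, (j : ℝ) * Real.log 4 + (Real.log 15 + 2 * Real.log j) ≤
      (1 + δ) * (((j : ℝ) - 1) * Real.log 4) := by
    have hl4 : 0 < Real.log 4 := Real.log_pos (by norm_num)
    have hlog : (fun x : ℝ => Real.log x) =o[atTop] (fun x : ℝ => x) := Real.isLittleO_log_id_atTop
    have h1 := hlog.bound (show (0 : ℝ) < δ / 4 * Real.log 4 by positivity)
    have h3 := tendsto_natCast_atTop_atTop.eventually h1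
    filter_upwards [h3, tendsto_natCast_atTop_atTop.eventually_ge_atTop
      ((Real.log 15 + (1 + δ) * Real.log 4) / (δ / 2 * Real.log 4)), eventually_ge_atTop 1]
      with j hj1 hj2 hj3
    rw [div_le_iff₀ (by positivity)] at hj2
    have hj0 : (1 : ℝ) ≤ j := by exact_mod_cast hj3
    rw [Real.norm_of_nonneg (Real.log_nonneg hj0), Real.norm_of_nonneg (by linarith)] at hj1
    nlinarith
  filter_upwards [n1, eventually_ge_atTop (4 ^ (2 * k0) + 1), hHT ((1 + 10 * δ) / (10 * δ))]
    with j hj1 hj2 hj3 x hx1 hx2 a ha H hH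
  have hj0 : 1 ≤ j := le_trans (Nat.le_add_left 1 _) hj2
  have hpb := prodbound m u B mono hBC hPos hPot κ hκ j a hj0 ha H hH
  -- the blocks are late
  have hlate : ∀ i ∈ H, k0 ≤ κ i := by
    intro i hi
    by_contra hlt
    push Not at hlt
    have hb := block m u B hBC hPos (hκ i)
    have h3 : u i < 4 ^ k0 := lt_of_lt_of_le hb.2.1 (Nat.pow_le_pow_right (by norm_num) (by omega))
    have h4 : i < 4 ^ k0 := lt_of_le_of_lt (mono.le_apply) h3
    have h5 : i ^ 2 < (4 ^ k0) ^ 2 := Nat.pow_lt_pow_left h4 (by norm_num)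
    have h6 : (4 ^ k0) ^ 2 = 4 ^ (2 * k0) := by rw [← pow_mul, mul_comm]
    have := (hH i hi).1
    omega
  have hlogi : ∀ i ∈ H, (1 - δ') * Real.log (u i) ≤ Real.log (1 + lam m (κ i)) := by
    intro i hi
    have hb := block m u B hBC hPos (hκ i)
    have h1 := hk0 (κ i) (hlate i hi)
    have h3 := Real.log_le_log (by positivity) h1
    rw [Real.log_rpow (by norm_num)] at h3
    refine le_trans ?_ h3
    have h4 : Real.log (u i) ≤ ((κ i : ℝ) + 1) * Real.log 4 := by
      have h5 : (u i : ℝ) ≤ (4 : ℝ) ^ (κ i + 1) := by exact_mod_cast hb.2.1.le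
      have h6 := Real.log_le_log (by have := h2 i; positivity) h5
      rw [Real.log_pow] at h6
      push_cast at h6
      exact h6
    have := mul_le_mul_of_nonneg_left h4 (show (0 : ℝ) ≤ 1 - δ' by linarith)
    linarith
  set y : ℕ := ∏ i ∈ H, u i with hy
  have hylog : Real.log y = ∑ i ∈ H, Real.log (u i) := by
    rw [hy, Nat.cast_prod, Real.log_prod]
    intro i _
    have := h2 i
    positivity
  have hjR : (1 : ℝ) ≤ j := by exact_mod_cast hj0
  have hsum : (1 - δ') * Real.log y ≤ (j : ℝ) * Real.log 4 + (Real.log 15 + 2 * Real.log j) := by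
    rw [hylog, mul_sum]
    have h3 : ∑ i ∈ H, Real.log (1 + lam m (κ i)) = Real.log (∏ i ∈ H, (1 + lam m (κ i))) := by
      rw [Real.log_prod]
      intro i _
      have := lam_nonneg m (κ i)
      positivity
    have h4 : Real.log (∏ i ∈ H, (1 + lam m (κ i))) ≤ Real.log (15 * (4 : ℝ) ^ j * (j : ℝ) ^ 2) := by
      apply Real.log_le_log _ hpb
      apply prod_pos
      intro i _
      have := lam_nonneg m (κ i)
      positivity
    have h5 : Real.log (15 * (4 : ℝ) ^ j * (j : ℝ) ^ 2) =
        (j : ℝ) * Real.log 4 + (Real.log 15 + 2 * Real.log j) := by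
      rw [Real.log_mul (by positivity) (by positivity), Real.log_mul (by norm_num) (by positivity),
        Real.log_pow, Real.log_pow]
      push_cast
      ring
    have h6 := sum_le_sum hlogi
    linarith
  have hx0 : 1 ≤ x := by
    have : 0 < 4 ^ j := by positivity
    omega
  have hlogx : ((j : ℝ) - 1) * Real.log 4 ≤ Real.log x := by
    have h1 : (4 : ℝ) ^ j ≤ 4 * x := by exact_mod_cast hx1
    have h3 := Real.log_le_log (by positivity) h1
    rw [Real.log_pow, Real.log_mul (by norm_num) (by positivity)] at h3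
    linarith
  have hreg : Real.log y ≤ (1 + 10 * δ) * Real.log x := by
    have h1 : (1 - δ') * Real.log y ≤ (1 - δ') * ((1 + 10 * δ) * Real.log x) := by
      rw [← mul_assoc]
      have := mul_le_mul_of_nonneg_left hlogx (show (0 : ℝ) ≤ 1 + δ by positivity)
      have hlx : 0 ≤ Real.log x := Real.log_nonneg (by exact_mod_cast hx0)
      have := mul_le_mul_of_nonneg_right hprod hlx
      linarith
    exact le_of_mul_le_mul_left h1 (by linarith)
  have hc := hCNT u mono h2 H y le_rfl
  have hr := hREG u mono h2 x y (10 * δ) (by positivity) hx0 hreg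
  have hc' : (H.card : ℝ) ≤ (t u y : ℝ) := by exact_mod_cast hc
  have ht := hj3 x hx1
  have hsj : 1 ≤ Real.sqrt j := by
    rw [Real.one_le_sqrt]
    exact hjR
  have ht2 : (1 + 10 * δ) / (10 * δ) ≤ (t u x : ℝ) := by
    refine le_trans ?_ ht
    have : 0 ≤ (1 + 10 * δ) / (10 * δ) := by positivity
    nlinarith
  rw [div_le_iff₀ (by positivity)] at ht2
  nlinarith

end Pool.Agent.E8helper81.GS
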